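import Pool.Agent.Helper9.BS.St

/-!
# BS MODULE GNS: Moore's theorem
-/

set_option autoImplicit false

open scoped NNReal InnerProductSpace

noncomputable section

namespace Pool.Agent.Helper84.BS

open Pool.Agent.Helper9.BS

/-- the matrix of operators of the kernel `κ` -/
def opM {X : Type} (κ : X → X → ℂ) : Matrix X X (ℂ →L[ℂ] ℂ) :=
  fun x y => κ x y • ContinuousLinearMap.id ℂ ℂ

lemma opM_apply {X : Type} (κ : X → X → ℂ) (x y : X) (v : ℂ) :
    opM κ x y v = κ x y * v := by
  simp [opM]

lemma opM_herm {X : Type} (κ : X → X → ℂ)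
    (h : ∀ x y, κ y x = (starRingEnd ℂ) (κ x y)) : (opM κ).IsHermitian := by
  refine Matrix.IsHermitian.ext fun x y => ?_
  rw [ContinuousLinearMap.star_eq_adjoint]
  symm
  rw [ContinuousLinearMap.eq_adjoint_iff]
  intro v w
  rw [opM_apply, opM_apply, h y x]
  simp only [RCLike.inner_apply, map_mul, starRingEnd_self_apply]
  ring

theorem hGNS : StGNS := by
  intro X κ hherm hpos
  have hP : (opM κ).PosSemidef := by
    have hiff := (RKHS.posSemidef_tfae (K := opM κ)).out 0 2
    refine hiff.mpr ⟨opM_herm κ hherm, fun vv => ?_⟩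
    have h := hpos vv
    refine h.trans (le_of_eq ?_)
    change Complex.re _ = Complex.re _
    congr 1
    refine Finsupp.sum_congr fun x _ => ?_
    refine Finsupp.sum_congr fun y _ => ?_
    rw [opM_apply, RCLike.inner_apply, map_mul, ← hherm y x]
    ring
  have : Fact (opM κ).PosSemidef := ⟨hP⟩
  refine ⟨RKHS.OfKernel (opM κ), inferInstance, inferInstance, inferInstance,
    fun x => RKHS.kerFun (RKHS.OfKernel (opM κ)) x 1, fun x y => ?_⟩
  have h := RKHS.kernel_inner (RKHS.OfKernel (opM κ)) y x (1 : ℂ) (1 : ℂ)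
  rw [RKHS.OfKernel.kernel_ofKernel] at h
  rw [← h, opM_apply, RCLike.inner_apply, hherm x y]
  simp

end Pool.Agent.Helper84.BS
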